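import Pool.Agent.SPH.E6.Main
import Pool.Agent.SPH.Uni

/-!
# Project SPH: the type `E6`, in the uniform form
-/

namespace Pool.Agent.SPH

theorem desc_E6 : AutDesc CoxeterMatrix.E₆ 12 := E6.main

end Pool.Agent.SPH
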