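import Pool.Agent.SPH.E6.Ok
import Pool.Agent.SPH.Idx1

/-!
# Project SPH: the generation certificate of type E6

`C(δ³)` and `C(δ⁴)` generate the group.
-/

set_option maxRecDepth 10000

namespace Pool.Agent.SPH.E6

/-- the steps -/
def gl : List Gen.Stp := [
  .F 0, .F 155, .F 233, .F 385, .F 472, .F 574, .F 653, .F 699, .F 755, .F 789, .F 832,
  .C 1 651 205, .C 1 156 205, .C 156 590 24, .C 156 564 24, .C 156 36 24, .M 385 789 1,
  .M 1 36 419, .M 155 0 238, .C 472 34 238, .C 155 7 238, .M 0 238 385, .C 564 237 515,
  .M 7 0 30, .C 36 2 30, .M 155 472 238, .M 827 1 0, .M 827 2 0, .M 827 36 0]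

/-- the first mask -/
def gz : ℕ := 0x14800000000200004000800000000000008000000000020000000000000000000400000000000000000000000010000000000000000000002000000000000000000000000000000000000420000000000000000000800000000000000000000000000001440000087

theorem gl_run : Gen.run ad.D.N ad.D.K ad.D.le ad.D.tm (ad.D.fx2 3 4) gz
    0x800000000000000000000000000000000000000000008000000000000004000001000000000000000000000000000000000000000000000000000000000000000000000000000000000200000000000000000001000000000000000000000000000001000000006
    gl 0 (CD.ins 0 (ad.gi (0 : Fin 6))) = true := by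
  decide +kernel

theorem gl_fin : (allL (List.ofFn ad.gi) fun i => CD.bit gz i) = true := by
  decide +kernel

end Pool.Agent.SPH.E6
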