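import Pool.Agent.SPH.E6.Gcl
import Pool.Agent.SPH.FourT
import Pool.Agent.SPH.LenF
import Pool.Agent.SPH.Eps

/-!
# Project SPH: the automorphisms of the Artin group of type `E6`
-/

set_option maxRecDepth 10000

namespace Pool.Agent.SPH.E6

open Pool.Agent.Helper7.AG Pool.Agent.HT

/-- the Artin group of type `E6` -/
abbrev EA : Type := Artin CoxeterMatrix.E₆

/-- the product of the six generators -/
def gd : EA := (List.ofFn fun k : Fin 6 => (PresentedGroup.of k : EA)).prod

theorem k1 : td.chk1 = true := by decide +kernel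

theorem kw : td.witc 1 = true := by decide +kernel

theorem kb3 : td.blkc 3 385 2 = true := by decide +kernel

theorem kp : AD.prc td 0 (List.ofFn ad.gi) = true := by decide +kernel

theorem kb4 : td.B4c 132 755 155 233 where
  two := by decide +kernel
  mem := by decide +kernel
  K_a := by decide +kernel
  rk_a := by decide +kernel
  tau_u := by decide +kernel
  uK := by decide +kernel
  bK := by decide +kernel
  bK' := by decide +kernel
  b_bot := by decide
  b_ne := by decide
  b_le := by decide +kernel
  b_le' := by decide +kernel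
  q_b := by decide +kernel
  q_b' := by decide +kernel
  tau_b := by decide +kernel
  tau_b' := by decide +kernel
  loops := by decide +kernel
  fix4 := by decide +kernel
  a_le := by decide +kernel
  a_eq := by decide +kernel

/-- the element with a given number -/
def el (i : ℕ) (h : i < 833) : TD.El td_ok := ⟨i, h⟩

/-- all generators have the same value under an additive function -/
theorem add_const (K : EA → ℤ) (hK : ∀ u v, K (u * v) = K u + K v) (s t : Fin 6) :
    K (PresentedGroup.of s) = K (PresentedGroup.of t) := by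
  have e1 : K (PresentedGroup.of 0) = K (PresentedGroup.of 2) := add_three hK (by rfl)
  have e2 : K (PresentedGroup.of 2) = K (PresentedGroup.of 3) := add_three hK (by rfl)
  have e3 : K (PresentedGroup.of 1) = K (PresentedGroup.of 3) := add_three hK (by rfl)
  have e4 : K (PresentedGroup.of 3) = K (PresentedGroup.of 4) := add_three hK (by rfl)
  have e5 : K (PresentedGroup.of 4) = K (PresentedGroup.of 5) := add_three hK (by rfl)
  have key : ∀ s : Fin 6, K (PresentedGroup.of s) = K (PresentedGroup.of 3) := by
    intro s
    fin_cases s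
    · exact e1.trans e2
    · exact e3
    · exact e2
    · rfl
    · exact e4.symm
    · exact (e4.trans e5).symm
  rw [key s, key t]

theorem main : ∃ ε : MulAut EA, InvertsGens CoxeterMatrix.E₆ ε ∧ ε * ε = 1 ∧
    FormMod EA ε (gd ^ 12) ∧ Subgroup.center EA = Subgroup.zpowers (gd ^ 12) ∧
    OutGenBy EA ε ∧ Splits EA := by
  obtain ⟨P, hPg, hPl⟩ := AD.exists_pre ad_ok
  obtain ⟨L, F, hg, hl⟩ := P.exists_frame
  let _ : Lattice EA := L
  have hg' : ∀ (k : Fin 6) (x : AD.SS ad_ok), x.i = ad.gi k →
      F.g x = (PresentedGroup.of k : EA) := by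
    intro k x hx
    rw [hg]
    exact hPg k x hx
  have hd : F.δ = gd := (AD.prod_of ad_ok F hg' kp).symm
  have hl1 : ∀ s : Fin 6, F.len (PresentedGroup.of s : EA) = 1 := by
    intro s
    rw [hl]
    exact hPl s
  have hU : F.Cn 3 ⊔ F.Cn 4 = ⊤ := AD.gen_top ad_ok F hg' gl_run gl_fin
  have hfix : ∀ φ : MulAut EA, φ F.δ = F.δ → ∃ x : EA, φ = MulAut.conj x := by
    intro φ hφ
    obtain ⟨j, hj⟩ := F.b4_blocks
      (TD.blk4_of kb4 (xa := el 132 (by norm_num)) (xu := el 755 (by norm_num))
        (xb := el 155 (by norm_num)) (xb' := el 233 (by norm_num)) rfl rfl rfl rfl)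
      (TD.blk_of kb3 (x := el 385 (by norm_num)) rfl) hU hφ
      (len_fix (n := 6) (Nat.succ_pos 5) F.len_mul hl1 add_const hd hφ)
    exact ⟨_, hj⟩
  have h := final F M_bd hl1 (TD.tau_triv k1) (TD.exists_moved kw) hfix
  rw [hd] at h
  exact h

end Pool.Agent.SPH.E6
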