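import Pool.Agent.SPH.E6.Cert
import Pool.Agent.SPH.ChkT

/-!
# Project SPH: the checks of the tables of type E6, the meets, second part
-/

set_option maxRecDepth 10000

namespace Pool.Agent.SPH.E6

theorem kB_425 : rngB 833 425 25 td.chkB = true := by decide +kernel

theorem kB_450 : rngB 833 450 25 td.chkB = true := by decide +kernel

theorem kB_475 : rngB 833 475 25 td.chkB = true := by decide +kernel

theorem kB_500 : rngB 833 500 25 td.chkB = true := by decide +kernel

theorem kB_525 : rngB 833 525 25 td.chkB = true := by decide +kernel

theorem kB_550 : rngB 833 550 25 td.chkB = true := by decide +kernel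

theorem kB_575 : rngB 833 575 25 td.chkB = true := by decide +kernel

theorem kB_600 : rngB 833 600 25 td.chkB = true := by decide +kernel

theorem kB_625 : rngB 833 625 25 td.chkB = true := by decide +kernel

theorem kB_650 : rngB 833 650 25 td.chkB = true := by decide +kernel

theorem kB_675 : rngB 833 675 25 td.chkB = true := by decide +kernel

theorem kB_700 : rngB 833 700 25 td.chkB = true := by decide +kernel

theorem kB_725 : rngB 833 725 25 td.chkB = true := by decide +kernel

theorem kB_750 : rngB 833 750 25 td.chkB = true := by decide +kernel

theorem kB_775 : rngB 833 775 25 td.chkB = true := by decide +kernel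

theorem kB_800 : rngB 833 800 25 td.chkB = true := by decide +kernel

theorem kB_825 : rngB 833 825 8 td.chkB = true := by decide +kernel

end Pool.Agent.SPH.E6
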