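import Pool.Agent.SPH.E6.Cert
import Pool.Agent.SPH.ChkT

/-!
# Project SPH: the checks of the tables of type E6, the pairs
-/

set_option maxRecDepth 10000

namespace Pool.Agent.SPH.E6

theorem kC_0 : rngB 833 0 45 td.chkC = true := by decide +kernel

theorem kC_45 : rngB 833 45 45 td.chkC = true := by decide +kernel

theorem kC_90 : rngB 833 90 45 td.chkC = true := by decide +kernel

theorem kC_135 : rngB 833 135 45 td.chkC = true := by decide +kernel

theorem kC_180 : rngB 833 180 45 td.chkC = true := by decide +kernel

theorem kC_225 : rngB 833 225 45 td.chkC = true := by decide +kernel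

theorem kC_270 : rngB 833 270 45 td.chkC = true := by decide +kernel

theorem kC_315 : rngB 833 315 45 td.chkC = true := by decide +kernel

theorem kC_360 : rngB 833 360 45 td.chkC = true := by decide +kernel

theorem kC_405 : rngB 833 405 45 td.chkC = true := by decide +kernel

theorem kC_450 : rngB 833 450 45 td.chkC = true := by decide +kernel

theorem kC_495 : rngB 833 495 45 td.chkC = true := by decide +kernel

theorem kC_540 : rngB 833 540 45 td.chkC = true := by decide +kernel

theorem kC_585 : rngB 833 585 45 td.chkC = true := by decide +kernel

theorem kC_630 : rngB 833 630 45 td.chkC = true := by decide +kernel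

theorem kC_675 : rngB 833 675 45 td.chkC = true := by decide +kernel

theorem kC_720 : rngB 833 720 45 td.chkC = true := by decide +kernel

theorem kC_765 : rngB 833 765 45 td.chkC = true := by decide +kernel

theorem kC_810 : rngB 833 810 23 td.chkC = true := by decide +kernel

theorem kS_0 : rngB 833 0 45 td.chkS = true := by decide +kernel

theorem kS_45 : rngB 833 45 45 td.chkS = true := by decide +kernel

theorem kS_90 : rngB 833 90 45 td.chkS = true := by decide +kernel

theorem kS_135 : rngB 833 135 45 td.chkS = true := by decide +kernel

theorem kS_180 : rngB 833 180 45 td.chkS = true := by decide +kernel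

theorem kS_225 : rngB 833 225 45 td.chkS = true := by decide +kernel

theorem kS_270 : rngB 833 270 45 td.chkS = true := by decide +kernel

theorem kS_315 : rngB 833 315 45 td.chkS = true := by decide +kernel

theorem kS_360 : rngB 833 360 45 td.chkS = true := by decide +kernel

theorem kS_405 : rngB 833 405 45 td.chkS = true := by decide +kernel

theorem kS_450 : rngB 833 450 45 td.chkS = true := by decide +kernel

theorem kS_495 : rngB 833 495 45 td.chkS = true := by decide +kernel

theorem kS_540 : rngB 833 540 45 td.chkS = true := by decide +kernel

theorem kS_585 : rngB 833 585 45 td.chkS = true := by decide +kernel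

theorem kS_630 : rngB 833 630 45 td.chkS = true := by decide +kernel

theorem kS_675 : rngB 833 675 45 td.chkS = true := by decide +kernel

theorem kS_720 : rngB 833 720 45 td.chkS = true := by decide +kernel

theorem kS_765 : rngB 833 765 45 td.chkS = true := by decide +kernel

theorem kS_810 : rngB 833 810 23 td.chkS = true := by decide +kernel

end Pool.Agent.SPH.E6
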