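import Pool.Agent.SPH.E6.Cert
import Pool.Agent.SPH.ChkT

/-!
# Project SPH: the checks of the tables of type E6, the triples, first part
-/

set_option maxRecDepth 10000

namespace Pool.Agent.SPH.E6

theorem kT_0 : rngB 833 0 2 td.chkT' = true := by decide +kernel

theorem kT_2 : rngB 833 2 3 td.chkT' = true := by decide +kernel

theorem kT_5 : rngB 833 5 1 td.chkT' = true := by decide +kernel

theorem kT_6 : rngB 833 6 1 td.chkT' = true := by decide +kernel

theorem kT_7 : rngB 833 7 1 td.chkT' = true := by decide +kernel

theorem kT_8 : rngB 833 8 3 td.chkT' = true := by decide +kernel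

theorem kT_11 : rngB 833 11 1 td.chkT' = true := by decide +kernel

theorem kT_12 : rngB 833 12 1 td.chkT' = true := by decide +kernel

theorem kT_13 : rngB 833 13 1 td.chkT' = true := by decide +kernel

theorem kT_14 : rngB 833 14 3 td.chkT' = true := by decide +kernel

theorem kT_17 : rngB 833 17 1 td.chkT' = true := by decide +kernel

theorem kT_18 : rngB 833 18 1 td.chkT' = true := by decide +kernel

theorem kT_19 : rngB 833 19 1 td.chkT' = true := by decide +kernel

theorem kT_20 : rngB 833 20 3 td.chkT' = true := by decide +kernel

theorem kT_23 : rngB 833 23 1 td.chkT' = true := by decide +kernel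

theorem kT_24 : rngB 833 24 1 td.chkT' = true := by decide +kernel

theorem kT_25 : rngB 833 25 1 td.chkT' = true := by decide +kernel

theorem kT_26 : rngB 833 26 3 td.chkT' = true := by decide +kernel

theorem kT_29 : rngB 833 29 1 td.chkT' = true := by decide +kernel

theorem kT_30 : rngB 833 30 1 td.chkT' = true := by decide +kernel

theorem kT_31 : rngB 833 31 3 td.chkT' = true := by decide +kernel

theorem kT_34 : rngB 833 34 1 td.chkT' = true := by decide +kernel

theorem kT_35 : rngB 833 35 1 td.chkT' = true := by decide +kernel

theorem kT_36 : rngB 833 36 1 td.chkT' = true := by decide +kernel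

theorem kT_37 : rngB 833 37 12 td.chkT' = true := by decide +kernel

theorem kT_49 : rngB 833 49 13 td.chkT' = true := by decide +kernel

theorem kT_62 : rngB 833 62 13 td.chkT' = true := by decide +kernel

theorem kT_75 : rngB 833 75 13 td.chkT' = true := by decide +kernel

theorem kT_88 : rngB 833 88 11 td.chkT' = true := by decide +kernel

theorem kT_99 : rngB 833 99 14 td.chkT' = true := by decide +kernel

theorem kT_113 : rngB 833 113 12 td.chkT' = true := by decide +kernel

theorem kT_125 : rngB 833 125 12 td.chkT' = true := by decide +kernel

end Pool.Agent.SPH.E6
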