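import Pool.Agent.SPH.E6.Cert
import Pool.Agent.SPH.ChkT

/-!
# Project SPH: the checks of the tables of type E6, the triples, second part
-/

set_option maxRecDepth 10000

namespace Pool.Agent.SPH.E6

theorem kT_137 : rngB 833 137 14 td.chkT' = true := by decide +kernel

theorem kT_151 : rngB 833 151 12 td.chkT' = true := by decide +kernel

theorem kT_163 : rngB 833 163 12 td.chkT' = true := by decide +kernel

theorem kT_175 : rngB 833 175 16 td.chkT' = true := by decide +kernel

theorem kT_191 : rngB 833 191 12 td.chkT' = true := by decide +kernel

theorem kT_203 : rngB 833 203 13 td.chkT' = true := by decide +kernel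

theorem kT_216 : rngB 833 216 13 td.chkT' = true := by decide +kernel

theorem kT_229 : rngB 833 229 12 td.chkT' = true := by decide +kernel

theorem kT_241 : rngB 833 241 23 td.chkT' = true := by decide +kernel

theorem kT_264 : rngB 833 264 23 td.chkT' = true := by decide +kernel

theorem kT_287 : rngB 833 287 23 td.chkT' = true := by decide +kernel

theorem kT_310 : rngB 833 310 23 td.chkT' = true := by decide +kernel

theorem kT_333 : rngB 833 333 23 td.chkT' = true := by decide +kernel

theorem kT_356 : rngB 833 356 23 td.chkT' = true := by decide +kernel

theorem kT_379 : rngB 833 379 23 td.chkT' = true := by decide +kernel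

theorem kT_402 : rngB 833 402 23 td.chkT' = true := by decide +kernel

theorem kT_425 : rngB 833 425 23 td.chkT' = true := by decide +kernel

theorem kT_448 : rngB 833 448 23 td.chkT' = true := by decide +kernel

theorem kT_471 : rngB 833 471 23 td.chkT' = true := by decide +kernel

theorem kT_494 : rngB 833 494 24 td.chkT' = true := by decide +kernel

theorem kT_518 : rngB 833 518 23 td.chkT' = true := by decide +kernel

theorem kT_541 : rngB 833 541 23 td.chkT' = true := by decide +kernel

theorem kT_564 : rngB 833 564 23 td.chkT' = true := by decide +kernel

theorem kT_587 : rngB 833 587 25 td.chkT' = true := by decide +kernel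

theorem kT_612 : rngB 833 612 26 td.chkT' = true := by decide +kernel

theorem kT_638 : rngB 833 638 26 td.chkT' = true := by decide +kernel

theorem kT_664 : rngB 833 664 26 td.chkT' = true := by decide +kernel

theorem kT_690 : rngB 833 690 26 td.chkT' = true := by decide +kernel

theorem kT_716 : rngB 833 716 26 td.chkT' = true := by decide +kernel

theorem kT_742 : rngB 833 742 26 td.chkT' = true := by decide +kernel

theorem kT_768 : rngB 833 768 26 td.chkT' = true := by decide +kernel

theorem kT_794 : rngB 833 794 26 td.chkT' = true := by decide +kernel

theorem kT_820 : rngB 833 820 13 td.chkT' = true := by decide +kernel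

end Pool.Agent.SPH.E6
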