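import Pool.Agent.SPH.E6.Cert
import Pool.Agent.SPH.ChkT

/-!
# Project SPH: the checks of the tables of type E6, the atoms below an element
-/

set_option maxRecDepth 10000

namespace Pool.Agent.SPH.E6

theorem kU : allB 833 ad.chkU = true := by decide +kernel

theorem kV : allB 833 ad.chkV = true := by decide +kernel

theorem kP : ad.chkP = true := by decide +kernel

theorem kQ : ad.chkQ = true := by decide +kernel

theorem kR : ad.chkR = true := by decide +kernel

theorem kRun : CD.run ad.d ad.cox ad.A0 ad.A1 ad.R1 ad.l ad.A0 0 = true := by decide +kernel

end Pool.Agent.SPH.E6
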