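import Pool.Agent.SPH.E6.OkB1
import Pool.Agent.SPH.E6.OkB2
import Pool.Agent.SPH.E6.OkC
import Pool.Agent.SPH.E6.OkT1
import Pool.Agent.SPH.E6.OkT2
import Pool.Agent.SPH.E6.OkU

/-!
# Project SPH: the checks of the tables of type E6
-/

set_option maxRecDepth 10000

namespace Pool.Agent.SPH.E6

theorem k0 : td.chk0 = true := by decide +kernel

theorem kA : allB 833 td.chkA = true := by decide +kernel

theorem kB : UpTo 833 td.chkB :=
  ((((((((((((((((((((((((((((((((((upTo_zero td.chkB).add kB_0 (by norm_num)).add kB_25 (by
    norm_num)).add kB_50 (by norm_num)).add kB_75 (by norm_num)).add kB_100 (by norm_num)).add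
    kB_125 (by norm_num)).add kB_150 (by norm_num)).add kB_175 (by norm_num)).add kB_200 (by
    norm_num)).add kB_225 (by norm_num)).add kB_250 (by norm_num)).add kB_275 (by
    norm_num)).add kB_300 (by norm_num)).add kB_325 (by norm_num)).add kB_350 (by
    norm_num)).add kB_375 (by norm_num)).add kB_400 (by norm_num)).add kB_425 (by
    norm_num)).add kB_450 (by norm_num)).add kB_475 (by norm_num)).add kB_500 (by
    norm_num)).add kB_525 (by norm_num)).add kB_550 (by norm_num)).add kB_575 (by
    norm_num)).add kB_600 (by norm_num)).add kB_625 (by norm_num)).add kB_650 (by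
    norm_num)).add kB_675 (by norm_num)).add kB_700 (by norm_num)).add kB_725 (by
    norm_num)).add kB_750 (by norm_num)).add kB_775 (by norm_num)).add kB_800 (by
    norm_num)).add kB_825 (by norm_num)

theorem kC : UpTo 833 td.chkC :=
  (((((((((((((((((((upTo_zero td.chkC).add kC_0 (by norm_num)).add kC_45 (by norm_num)).add
    kC_90 (by norm_num)).add kC_135 (by norm_num)).add kC_180 (by norm_num)).add kC_225 (by
    norm_num)).add kC_270 (by norm_num)).add kC_315 (by norm_num)).add kC_360 (by
    norm_num)).add kC_405 (by norm_num)).add kC_450 (by norm_num)).add kC_495 (by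
    norm_num)).add kC_540 (by norm_num)).add kC_585 (by norm_num)).add kC_630 (by
    norm_num)).add kC_675 (by norm_num)).add kC_720 (by norm_num)).add kC_765 (by
    norm_num)).add kC_810 (by norm_num)

theorem kS : UpTo 833 td.chkS :=
  (((((((((((((((((((upTo_zero td.chkS).add kS_0 (by norm_num)).add kS_45 (by norm_num)).add
    kS_90 (by norm_num)).add kS_135 (by norm_num)).add kS_180 (by norm_num)).add kS_225 (by
    norm_num)).add kS_270 (by norm_num)).add kS_315 (by norm_num)).add kS_360 (by
    norm_num)).add kS_405 (by norm_num)).add kS_450 (by norm_num)).add kS_495 (by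
    norm_num)).add kS_540 (by norm_num)).add kS_585 (by norm_num)).add kS_630 (by
    norm_num)).add kS_675 (by norm_num)).add kS_720 (by norm_num)).add kS_765 (by
    norm_num)).add kS_810 (by norm_num)

theorem kT : UpTo 833 td.chkT' :=
  (((((((((((((((((((((((((((((((((((((((((((((((((((((((((((((((((upTo_zero td.chkT').add kT_0
    (by norm_num)).add kT_2 (by norm_num)).add kT_5 (by norm_num)).add kT_6 (by norm_num)).add
    kT_7 (by norm_num)).add kT_8 (by norm_num)).add kT_11 (by norm_num)).add kT_12 (by
    norm_num)).add kT_13 (by norm_num)).add kT_14 (by norm_num)).add kT_17 (by norm_num)).add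
    kT_18 (by norm_num)).add kT_19 (by norm_num)).add kT_20 (by norm_num)).add kT_23 (by
    norm_num)).add kT_24 (by norm_num)).add kT_25 (by norm_num)).add kT_26 (by norm_num)).add
    kT_29 (by norm_num)).add kT_30 (by norm_num)).add kT_31 (by norm_num)).add kT_34 (by
    norm_num)).add kT_35 (by norm_num)).add kT_36 (by norm_num)).add kT_37 (by norm_num)).add
    kT_49 (by norm_num)).add kT_62 (by norm_num)).add kT_75 (by norm_num)).add kT_88 (by
    norm_num)).add kT_99 (by norm_num)).add kT_113 (by norm_num)).add kT_125 (by norm_num)).add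
    kT_137 (by norm_num)).add kT_151 (by norm_num)).add kT_163 (by norm_num)).add kT_175 (by
    norm_num)).add kT_191 (by norm_num)).add kT_203 (by norm_num)).add kT_216 (by
    norm_num)).add kT_229 (by norm_num)).add kT_241 (by norm_num)).add kT_264 (by
    norm_num)).add kT_287 (by norm_num)).add kT_310 (by norm_num)).add kT_333 (by
    norm_num)).add kT_356 (by norm_num)).add kT_379 (by norm_num)).add kT_402 (by
    norm_num)).add kT_425 (by norm_num)).add kT_448 (by norm_num)).add kT_471 (by
    norm_num)).add kT_494 (by norm_num)).add kT_518 (by norm_num)).add kT_541 (by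
    norm_num)).add kT_564 (by norm_num)).add kT_587 (by norm_num)).add kT_612 (by
    norm_num)).add kT_638 (by norm_num)).add kT_664 (by norm_num)).add kT_690 (by
    norm_num)).add kT_716 (by norm_num)).add kT_742 (by norm_num)).add kT_768 (by
    norm_num)).add kT_794 (by norm_num)).add kT_820 (by norm_num)

theorem td_ok : td.Ok :=
  TD.ok_of_chk k0 (allB_spec kA) kB kC kS (fun i hi => TD.chkT_of (allB_spec kA) (kT i hi))

set_option backward.isDefEq.respectTransparency false in
theorem cox_eq : ∀ a b, ad.cox (ad.gi a) (ad.gi b) = ad.M a b := by decide +kernel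

set_option backward.isDefEq.respectTransparency false in
theorem M_bd : ∀ a b, a ≠ b → 2 ≤ ad.M a b ∧ ad.M a b ≤ 5 := by decide +kernel

theorem ad_chk : ad.Chk where
  ok := td_ok
  T_lt := by decide +kernel
  T_N := by decide +kernel
  P := kP
  gi_atom := by decide +kernel
  gi_inj := by decide +kernel
  A0_eq := by decide +kernel
  cox_eq := cox_eq
  M_bd := M_bd
  run := kRun
  Q := kQ
  R := kR
  brc := by decide +kernel
  U := allB_spec kU
  V := allB_spec kV

theorem ad_ok : ad.Ok := ad_chk.toOk

end Pool.Agent.SPH.E6
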