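import Pool.Agent.SPH.E6.Cert
import Pool.Agent.SPH.ChkT

/-!
# Project SPH: the checks of the tables of type E6, the meets, first part
-/

set_option maxRecDepth 10000

namespace Pool.Agent.SPH.E6

theorem kB_0 : rngB 833 0 25 td.chkB = true := by decide +kernel

theorem kB_25 : rngB 833 25 25 td.chkB = true := by decide +kernel

theorem kB_50 : rngB 833 50 25 td.chkB = true := by decide +kernel

theorem kB_75 : rngB 833 75 25 td.chkB = true := by decide +kernel

theorem kB_100 : rngB 833 100 25 td.chkB = true := by decide +kernel

theorem kB_125 : rngB 833 125 25 td.chkB = true := by decide +kernel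

theorem kB_150 : rngB 833 150 25 td.chkB = true := by decide +kernel

theorem kB_175 : rngB 833 175 25 td.chkB = true := by decide +kernel

theorem kB_200 : rngB 833 200 25 td.chkB = true := by decide +kernel

theorem kB_225 : rngB 833 225 25 td.chkB = true := by decide +kernel

theorem kB_250 : rngB 833 250 25 td.chkB = true := by decide +kernel

theorem kB_275 : rngB 833 275 25 td.chkB = true := by decide +kernel

theorem kB_300 : rngB 833 300 25 td.chkB = true := by decide +kernel

theorem kB_325 : rngB 833 325 25 td.chkB = true := by decide +kernel

theorem kB_350 : rngB 833 350 25 td.chkB = true := by decide +kernel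

theorem kB_375 : rngB 833 375 25 td.chkB = true := by decide +kernel

theorem kB_400 : rngB 833 400 25 td.chkB = true := by decide +kernel

end Pool.Agent.SPH.E6
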